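import Mathlib

/-!
# Divisibility forced by a basis closed under multiplication

If a `ℂ`-subalgebra `A` of a field has a basis `𝓑` stable under multiplication by `a` and `b`,
where no positive power of `a` is a power of `b` up to a power of `b`, then
`(a ^ 4 * b ^ 2 - 1) * F = (b - 1) * G` with `F, G ∈ A` forces `F ∈ (b - 1) * A`.
-/

namespace Pool.Agent.Helper34.Clus

theorem eq_zero_of_mapDomain_eq {Q : Type} (σ : Q → Q) (hσ : Function.Injective σ)
    (hper : ∀ (q : Q) (n : ℕ), 0 < n → σ^[n] q ≠ q) (θ : Q →₀ ℂ)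
    (h : Finsupp.mapDomain σ θ = θ) : θ = 0 := by
  classical
  by_contra hne
  obtain ⟨q, hq⟩ := Finsupp.ne_iff.mp hne
  have hstep : ∀ p, θ (σ p) = θ p := fun p => by
    conv_lhs => rw [← h]
    exact Finsupp.mapDomain_apply hσ θ p
  have hall : ∀ n : ℕ, θ (σ^[n] q) = θ q := by
    intro n
    induction n with
    | zero => rfl
    | succ n ih => rw [Function.iterate_succ_apply', hstep, ih]
  have hmem : ∀ n : ℕ, σ^[n] q ∈ θ.support := by
    intro n
    rw [Finsupp.mem_support_iff, hall n]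
    simpa using hq
  have hinj : Function.Injective (fun n : ℕ => σ^[n] q) := by
    have key : ∀ m n : ℕ, m < n → σ^[m] q ≠ σ^[n] q := by
      intro m n hmn heq
      have h1 : σ^[n] q = σ^[m] (σ^[n - m] q) := by
        rw [← Function.iterate_add_apply]
        congr 2
        omega
      rw [h1] at heq
      exact hper q (n - m) (by omega) ((hσ.iterate m) heq).symm
    intro m n hmn
    rcases lt_trichotomy m n with hlt | heq | hgt
    · exact absurd hmn (key m n hlt)
    · exact heq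
    · exact absurd hmn.symm (key n m hgt)
  exact Set.infinite_of_injective_forall_mem hinj
    (s := (θ.support : Set Q)) (fun n => Finset.mem_coe.mpr (hmem n)) θ.support.finite_toSet

theorem exists_div_of_basis_closed {K : Type} [Field K] [Algebra ℂ K] (A : Subalgebra ℂ K)
    (𝓑 : Set K) (hli : LinearIndependent ℂ (fun b : 𝓑 => (b : K)))
    (hspan : Submodule.span ℂ 𝓑 = Subalgebra.toSubmodule A)
    (a b : K) (ha : a ≠ 0) (hb : b ≠ 0)
    (ha𝓑 : ∀ β ∈ 𝓑, a * β ∈ 𝓑) (hb𝓑 : ∀ β ∈ 𝓑, b * β ∈ 𝓑)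
    (hfree : ∀ k m n : ℕ, a ^ k * b ^ m = b ^ n → k = 0)
    (F G : K) (hF : F ∈ A) (hG : G ∈ A) (h : (a ^ 4 * b ^ 2 - 1) * F = (b - 1) * G) :
    ∃ Y ∈ A, F = (b - 1) * Y := by
  classical
  -- elements of `𝓑` lie in `A`
  have hBA : ∀ β ∈ 𝓑, β ∈ A := fun β hβ => by
    have : β ∈ Subalgebra.toSubmodule A := hspan ▸ Submodule.subset_span hβ
    exact this
  -- multiplication maps on `𝓑`
  let MA : 𝓑 → 𝓑 := fun β => ⟨a * β, ha𝓑 β β.2⟩
  let MB : 𝓑 → 𝓑 := fun β => ⟨b * β, hb𝓑 β β.2⟩
  have hMA : ∀ (n : ℕ) (β : 𝓑), ((MA^[n] β : 𝓑) : K) = a ^ n * β := by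
    intro n
    induction n with
    | zero => intro β; simp
    | succ n ih => intro β; rw [Function.iterate_succ_apply', pow_succ', mul_assoc, ← ih]
  have hMB : ∀ (n : ℕ) (β : 𝓑), ((MB^[n] β : 𝓑) : K) = b ^ n * β := by
    intro n
    induction n with
    | zero => intro β; simp
    | succ n ih => intro β; rw [Function.iterate_succ_apply', pow_succ', mul_assoc, ← ih]
  have hne0 : ∀ β : 𝓑, (β : K) ≠ 0 := fun β => hli.ne_zero β
  let S : Setoid 𝓑 :=
    { r := fun β β' => ∃ m n : ℕ, b ^ m * (β : K) = b ^ n * (β' : K)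
      iseqv :=
        { refl := fun β => ⟨0, 0, rfl⟩
          symm := fun {β β'} ⟨m, n, hmn⟩ => ⟨n, m, hmn.symm⟩
          trans := fun {β β' β''} ⟨m, n, hmn⟩ ⟨p, q, hpq⟩ => ⟨p + m, n + q, by
            calc b ^ (p + m) * (β : K) = b ^ p * (b ^ m * β) := by ring
              _ = b ^ n * (b ^ p * β') := by rw [hmn]; ring
              _ = b ^ (n + q) * β'' := by rw [hpq]; ring⟩ } }
  have hSdef : ∀ β β' : 𝓑, (Quotient.mk S β = Quotient.mk S β') ↔
      ∃ m n : ℕ, b ^ m * (β : K) = b ^ n * (β' : K) := fun β β' => Quotient.eq (r := S)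
  let τ : Quotient S → Quotient S := Quotient.map MA (fun β β' hr => by
    obtain ⟨m, n, hmn⟩ := hr
    refine ⟨m, n, ?_⟩
    change b ^ m * (a * (β : K)) = b ^ n * (a * (β' : K))
    calc b ^ m * (a * (β : K)) = a * (b ^ m * β) := by ring
      _ = b ^ n * (a * β') := by rw [hmn]; ring)
  have hτmk : ∀ β : 𝓑, τ (Quotient.mk S β) = Quotient.mk S (MA β) := fun β => rfl
  have hτn : ∀ (n : ℕ) (β : 𝓑), τ^[n] (Quotient.mk S β) = Quotient.mk S (MA^[n] β) := by
    intro n
    induction n with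
    | zero => intro β; rfl
    | succ n ih => intro β; rw [Function.iterate_succ_apply', ih, hτmk,
        Function.iterate_succ_apply']
  have hτinj : Function.Injective τ := by
    intro q q'
    induction q using Quotient.inductionOn with | _ β => ?_
    induction q' using Quotient.inductionOn with | _ β' => ?_
    intro hq
    rw [hτmk, hτmk, hSdef] at hq
    obtain ⟨m, n, hmn⟩ := hq
    rw [hSdef]
    refine ⟨m, n, ?_⟩
    change b ^ m * (a * (β : K)) = b ^ n * (a * (β' : K)) at hmn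
    have : a * (b ^ m * (β : K)) = a * (b ^ n * (β' : K)) := by
      calc a * (b ^ m * (β : K)) = b ^ m * (a * β) := by ring
        _ = a * (b ^ n * β') := by rw [hmn]; ring
    exact mul_left_cancel₀ ha this
  have hτper : ∀ (q : Quotient S) (n : ℕ), 0 < n → τ^[n] q ≠ q := by
    intro q n hn
    induction q using Quotient.inductionOn with | _ β => ?_
    intro hq
    rw [hτn, hSdef] at hq
    obtain ⟨m, p, hmp⟩ := hq
    rw [hMA] at hmp
    have h1 : (a ^ n * b ^ m) * (β : K) = b ^ p * β := by rw [← hmp]; ring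
    have h2 := mul_right_cancel₀ (hne0 β) h1
    have := hfree n m p h2
    omega
  -- coordinates
  let L : (𝓑 →₀ ℂ) →ₗ[ℂ] K := Finsupp.linearCombination ℂ (fun b : 𝓑 => (b : K))
  have hLinj : Function.Injective L := hli
  have hLex : ∀ x ∈ A, ∃ φ, L φ = x := by
    intro x hx
    have hx' : x ∈ Submodule.span ℂ 𝓑 := by rw [hspan]; exact hx
    have h3 := (Finsupp.mem_span_iff_linearCombination ℂ 𝓑 x).mp hx'
    exact h3
  have hLmap : ∀ (f : 𝓑 → 𝓑) (c : K), (∀ β : 𝓑, ((f β : 𝓑) : K) = c * β) →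
      ∀ φ : 𝓑 →₀ ℂ, L (Finsupp.mapDomain f φ) = c * L φ := by
    intro f c hf φ
    simp only [L]
    rw [Finsupp.linearCombination_mapDomain, Finsupp.linearCombination_apply,
      Finsupp.linearCombination_apply, Finsupp.mul_sum]
    refine Finsupp.sum_congr fun β _ => ?_
    simp only [Function.comp_apply, hf, mul_smul_comm]
  obtain ⟨φ, hφ⟩ := hLex F hF
  obtain ⟨ψ, hψ⟩ := hLex G hG
  have hrel : Finsupp.mapDomain (MA^[4] ∘ MB^[2]) φ - φ = Finsupp.mapDomain MB ψ - ψ := by
    apply hLinj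
    rw [map_sub, map_sub, hLmap (MA^[4] ∘ MB^[2]) (a ^ 4 * b ^ 2) (fun β => by
      rw [Function.comp_apply, hMA, hMB]; ring), hLmap MB b (fun β => rfl), hφ, hψ]
    linear_combination h
  let π : 𝓑 → Quotient S := Quotient.mk S
  have hπB : ∀ β, π (MB β) = π β := fun β =>
    (hSdef _ _).mpr ⟨0, 1, by simp [MB]⟩
  have hπBn : ∀ (n : ℕ) β, π (MB^[n] β) = π β := by
    intro n
    induction n with
    | zero => intro β; rfl
    | succ n ih => intro β; rw [Function.iterate_succ_apply', hπB, ih]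
  have hθ : Finsupp.mapDomain (τ^[4]) (Finsupp.mapDomain π φ) = Finsupp.mapDomain π φ := by
    have h1 := congrArg (Finsupp.mapDomain.addMonoidHom (M := ℂ) π) hrel
    rw [map_sub, map_sub] at h1
    simp only [Finsupp.mapDomain.addMonoidHom, AddMonoidHom.coe_mk, ZeroHom.coe_mk] at h1
    rw [← Finsupp.mapDomain_comp, ← Finsupp.mapDomain_comp] at h1
    have e1 : π ∘ MB = π := funext hπB
    have e2 : π ∘ (MA^[4] ∘ MB^[2]) = τ^[4] ∘ π := by
      funext β
      change π (MA^[4] (MB^[2] β)) = τ^[4] (π β)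
      rw [← hπBn 2 β]
      exact (hτn 4 (MB^[2] β)).symm
    rw [e1, e2, sub_self] at h1
    rw [← Finsupp.mapDomain_comp]
    exact sub_eq_zero.mp h1
  have hθ0 : Finsupp.mapDomain π φ = 0 := by
    refine eq_zero_of_mapDomain_eq (τ^[4]) (hτinj.iterate 4) ?_ _ hθ
    intro q n hn hq
    rw [← Function.iterate_mul] at hq
    exact hτper q (4 * n) (by omega) hq
  -- the submodule `(b - 1) A`
  let M : Submodule ℂ K := (Subalgebra.toSubmodule A).map (LinearMap.mulLeft ℂ (b - 1))
  have hM : ∀ x, x ∈ M ↔ ∃ y ∈ A, (b - 1) * y = x := fun x => by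
    simp only [M, Submodule.mem_map, LinearMap.mulLeft_apply, Subalgebra.mem_toSubmodule]
  have hpow : ∀ (n : ℕ) (β : 𝓑), b ^ n * (β : K) - β ∈ M := by
    intro n β
    induction n with
    | zero => simp
    | succ n ih =>
      have : b ^ (n + 1) * (β : K) - β = (b - 1) * (b ^ n * β) + (b ^ n * β - β) := by ring
      rw [this]
      refine M.add_mem ((hM _).mpr ⟨b ^ n * β, ?_, rfl⟩) ih
      rw [← hMB]
      exact hBA _ (MB^[n] β).2
  let ρ : 𝓑 → 𝓑 := fun β => Quotient.out (s := S) (π β)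
  have hρ : ∀ β : 𝓑, (β : K) - (ρ β : K) ∈ M := by
    intro β
    have h1 : π (ρ β) = π β := Quotient.out_eq (π β)
    obtain ⟨m, n, hmn⟩ := (hSdef _ _).mp h1
    have : (β : K) - (ρ β : K) = (b ^ m * (ρ β : K) - ρ β) - (b ^ n * (β : K) - β) := by
      rw [hmn]; ring
    rw [this]
    exact M.sub_mem (hpow m _) (hpow n _)
  have hFM : F ∈ M := by
    have h1 : L (Finsupp.mapDomain ρ φ) = 0 := by
      have : ρ = (Quotient.out (s := S)) ∘ π := rfl
      rw [this, Finsupp.mapDomain_comp, hθ0, Finsupp.mapDomain_zero, map_zero]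
    have h2 : F = L φ - L (Finsupp.mapDomain ρ φ) := by rw [h1, hφ, sub_zero]
    rw [h2]
    simp only [L]
    rw [Finsupp.linearCombination_mapDomain, Finsupp.linearCombination_apply,
      Finsupp.linearCombination_apply, ← Finsupp.sum_sub]
    refine Submodule.sum_mem _ fun β _ => ?_
    simp only [Function.comp_apply]
    rw [← smul_sub]
    exact M.smul_mem _ (hρ β)
  obtain ⟨y, hy, hyF⟩ := (hM F).mp hFM
  exact ⟨y, hy, hyF.symm⟩

end Pool.Agent.Helper34.Clus
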